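import Pool.Agent.Helper8.TNG.All

/-!
# Tangled labelings: the negation of Q1

The definitions `IsLabeling`, `IsLinExt`, `IsLSucc`, `InChain`, `promote`, `Tangled` and
`numTangled` are those of `Pool/Agent/Helper8/TNG/Defs.lean` and follow the problem file word
for word. Some connected poset with `n` elements and exactly two minimal elements has more than
`(n - 2) * (n - 2)!` tangled labelings.
-/

namespace Pool.Agent.Results.MP_21b3ca_co.Tangled

open Pool.Agent.Helper8.TNG

theorem result : ∃ (P : Type) (_ : Fintype P) (_ : PartialOrder P),
    2 ≤ Fintype.card P ∧ (SimpleGraph.hasse P).Connected ∧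
      Set.ncard {p : P | IsMin p} = 2 ∧
      (Fintype.card P - 2) * (Fintype.card P - 2).factorial < numTangled P :=
  tangled_result

end Pool.Agent.Results.MP_21b3ca_co.Tangled
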